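import Pool.Agent.Helper40.DZ.Stmts2

/-! BLK: the block permutation cocycle. -/

set_option autoImplicit false

open Finset Filter MeasureTheory Topology
open scoped ComplexConjugate InnerProductSpace

namespace Pool.Agent.Helper40.DZ

open Pool.Agent.Helper16.AZ (T E Op mm fc Eig PP)
open Pool.Agent.Helper16.BZ (co Wk EE ff EQ Act Rot)
open Pool.Agent.Helper16.CZ (Tw Orth Fn)
open Pool.Agent.Helper16.MD (MS PB Am RW Rich)
open UnitAddTorus (mFourier)

namespace BLK81

theorem ms_congr {f F : ℕ → ℂ} {n₀ : ℕ} (h : ∀ n, n₀ ≤ n → f n = F n)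
    (hF : Tendsto (fun N : ℕ => MS F N / (N : ℂ)) atTop (𝓝 0)) :
    Tendsto (fun N : ℕ => MS f N / (N : ℂ)) atTop (𝓝 0) := by
  obtain ⟨D, hD⟩ : ∃ D : ℂ, D = ∑ n ∈ Icc 1 n₀, ((ArithmeticFunction.moebius n : ℤ) : ℂ) * (f n - F n) :=
    ⟨_, rfl⟩
  have h1 : ∀ᶠ N : ℕ in atTop, MS F N / (N : ℂ) + D / (N : ℂ) = MS f N / (N : ℂ) := by
    filter_upwards [eventually_ge_atTop n₀] with N hN
    have h2 : MS f N = MS F N + D := by
      have h3 : D = ∑ n ∈ Icc 1 N, ((ArithmeticFunction.moebius n : ℤ) : ℂ) * (f n - F n) := by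
        rw [hD]
        refine Finset.sum_subset (Finset.Icc_subset_Icc le_rfl hN) fun n hn hn' => ?_
        rw [Finset.mem_Icc] at hn hn'
        have : n₀ ≤ n := by omega
        rw [h n this, sub_self, mul_zero]
      rw [h3]
      unfold MS
      rw [← Finset.sum_add_distrib]
      refine Finset.sum_congr rfl fun n _ => ?_
      ring
    rw [h2, add_div]
  have h2 : Tendsto (fun N : ℕ => D / (N : ℂ)) atTop (𝓝 0) := tendsto_const_div_atTop_nhds_zero_nat D
  have h3 := hF.add h2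
  rw [add_zero] at h3
  exact h3.congr' h1

variable {Q d : ℕ}

/-- the inclusion of a block -/
noncomputable def J (c : Fin Q) : E d →L[ℂ] E (Q * d) :=
  LinearMap.toContinuousLinearMap
    { toFun := fun w => WithLp.toLp 2 fun i =>
        if (finProdFinEquiv.symm i).1 = c then w (finProdFinEquiv.symm i).2 else 0
      map_add' := fun w w' => by
        ext i
        simp only [PiLp.add_apply]
        split_ifs <;> simp
      map_smul' := fun a w => by
        ext i
        simp only [PiLp.smul_apply, RingHom.id_apply]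
        split_ifs <;> simp }

/-- the projection on a block -/
noncomputable def R (c : Fin Q) : E (Q * d) →L[ℂ] E d :=
  LinearMap.toContinuousLinearMap
    { toFun := fun w => WithLp.toLp 2 fun a => w (finProdFinEquiv (c, a))
      map_add' := fun w w' => by ext i; rfl
      map_smul' := fun a w => by ext i; rfl }

theorem J_apply (c : Fin Q) (w : E d) (i : Fin (Q * d)) :
    J c w i = if (finProdFinEquiv.symm i).1 = c then w (finProdFinEquiv.symm i).2 else 0 := rfl

theorem R_apply (c : Fin Q) (w : E (Q * d)) (a : Fin d) : R c w a = w (finProdFinEquiv (c, a)) := rfl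

theorem R_J (c c' : Fin Q) (w : E d) : R c (J c' w) = if c = c' then w else 0 := by
  ext a
  rw [R_apply, J_apply, Equiv.symm_apply_apply]
  split_ifs <;> rfl

theorem sum_J_R (w : E (Q * d)) : ∑ c : Fin Q, J c (R c w) = w := by
  ext i
  have h1 : (∑ c : Fin Q, J c (R c w)) i = ∑ c : Fin Q, J c (R c w) i := by
    simp only [WithLp.ofLp_sum, Finset.sum_apply]
  rw [h1, Finset.sum_eq_single (finProdFinEquiv.symm i).1]
  · rw [J_apply, if_pos rfl, R_apply]
    exact congrArg w.ofLp (finProdFinEquiv.apply_symm_apply i)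
  · intro b _ hb
    rw [J_apply, if_neg (Ne.symm hb)]
  · intro h; exact absurd (Finset.mem_univ _) h

theorem inner_J (c : Fin Q) (w : E d) (w' : E (Q * d)) :
    (inner ℂ (J c w) w' : ℂ) = inner ℂ w (R c w') := by
  rw [PiLp.inner_apply, PiLp.inner_apply, ← Equiv.sum_comp finProdFinEquiv, Fintype.sum_prod_type]
  rw [Finset.sum_eq_single c]
  · refine Finset.sum_congr rfl fun a _ => ?_
    rw [J_apply, Equiv.symm_apply_apply, if_pos rfl]
    rfl
  · intro b _ hb
    refine Finset.sum_eq_zero fun a _ => ?_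
    rw [J_apply, Equiv.symm_apply_apply, if_neg hb]
    simp
  · intro h; exact absurd (Finset.mem_univ _) h

/-- the block cocycle -/
noncomputable def Bk (σ : Equiv.Perm (Fin Q)) (f : Fin Q → Op d) : Op (Q * d) :=
  ∑ c : Fin Q, (J (σ c)).comp ((f c).comp (R c))

theorem Bk_apply (σ : Equiv.Perm (Fin Q)) (f : Fin Q → Op d) (w : E (Q * d)) :
    Bk σ f w = ∑ c : Fin Q, J (σ c) (f c (R c w)) := by
  unfold Bk
  rw [ContinuousLinearMap.sum_apply]
  rfl

theorem Bk_J (σ : Equiv.Perm (Fin Q)) (f : Fin Q → Op d) (c : Fin Q) (w : E d) :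
    Bk σ f (J c w) = J (σ c) (f c w) := by
  rw [Bk_apply, Finset.sum_eq_single c]
  · rw [R_J, if_pos rfl]
  · intro b _ hb
    rw [R_J, if_neg hb, map_zero, map_zero]
  · intro h; exact absurd (Finset.mem_univ _) h

theorem Bk_mul (σ τ : Equiv.Perm (Fin Q)) (f g : Fin Q → Op d) :
    Bk σ f * Bk τ g = Bk (σ * τ) (fun c => f (τ c) * g c) := by
  ext1 w
  rw [ContinuousLinearMap.mul_apply, Bk_apply τ g w, map_sum, Bk_apply]
  refine Finset.sum_congr rfl fun c _ => ?_
  rw [Bk_J]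
  rfl

theorem Bk_one : Bk (1 : Equiv.Perm (Fin Q)) (fun _ => (1 : Op d)) = 1 := by
  ext1 w
  rw [Bk_apply]
  exact sum_J_R w

theorem inv_self (σ : Equiv.Perm (Fin Q)) (c : Fin Q) : σ⁻¹ (σ c) = c := σ.symm_apply_apply c

theorem Bk_star (σ : Equiv.Perm (Fin Q)) (f : Fin Q → Op d) :
    star (Bk σ f) = Bk σ⁻¹ (fun c => star (f (σ⁻¹ c))) := by
  symm
  rw [ContinuousLinearMap.star_eq_adjoint, ContinuousLinearMap.eq_adjoint_iff]
  intro x y
  rw [Bk_apply, Bk_apply, sum_inner, inner_sum, ← Equiv.sum_comp σ]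
  refine Finset.sum_congr rfl fun c _ => ?_
  rw [inner_J, inv_self, ← inner_conj_symm x, inner_J, inner_conj_symm,
    ContinuousLinearMap.star_eq_adjoint, ContinuousLinearMap.adjoint_inner_left]

theorem Bk_unitary (σ : Equiv.Perm (Fin Q)) (f : Fin Q → Op d) (hf : ∀ c, f c ∈ unitary (Op d)) :
    Bk σ f ∈ unitary (Op (Q * d)) := by
  rw [Unitary.mem_iff, Bk_star, Bk_mul, Bk_mul]
  refine ⟨?_, ?_⟩
  · rw [inv_mul_cancel, ← Bk_one]
    congr 1
    funext c
    rw [inv_self]
    exact (Unitary.mem_iff.1 (hf c)).1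
  · rw [mul_inv_cancel, ← Bk_one]
    congr 1
    funext c
    exact (Unitary.mem_iff.1 (hf _)).2

/-- the block vector -/
noncomputable def Vk (v : Fin Q → E d) : E (Q * d) := ∑ c : Fin Q, J c (v c)

theorem inner_Vk (v : Fin Q → E d) (c : Fin Q) (w : E d) :
    (inner ℂ (Vk v) (J c w) : ℂ) = inner ℂ (v c) w := by
  unfold Vk
  rw [sum_inner, Finset.sum_eq_single c]
  · rw [inner_J, R_J, if_pos rfl]
  · intro b _ hb
    rw [inner_J, R_J, if_neg hb, inner_zero_right]
  · intro h; exact absurd (Finset.mem_univ _) h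

end BLK81

open BLK81 in
theorem st_BLK : ST_BLK := by
  intro r N Q n₀ S S' P x y hQ hP hS hG d φ v u hφ hφ' hv
  have : NeZero Q := ⟨by omega⟩
  -- residue classes
  obtain ⟨c, hc⟩ : ∃ c : ℕ → Fin Q, ∀ n, ((c n : Fin Q) : ℕ) = n % Q :=
    ⟨fun n => ⟨n % Q, Nat.mod_lt _ (by omega)⟩, fun n => rfl⟩
  obtain ⟨σ, hσ⟩ : ∃ σ : Equiv.Perm (Fin Q), ∀ a : Fin Q, ((σ a : Fin Q) : ℕ) = (a + 1) % Q := by
    refine ⟨Equiv.addRight 1, fun a => ?_⟩
    rw [Equiv.coe_addRight, Fin.val_add, Fin.val_one', Nat.add_mod_mod]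
  have hσc : ∀ n, σ (c n) = c (n + 1) := by
    intro n
    apply Fin.ext
    rw [hσ, hc, hc, Nat.mod_add_mod]
  obtain ⟨Φ, hΦ⟩ : ∃ Φ : T N → Op (Q * d), ∀ z, Φ z = Bk σ (fun a => φ (P (a : ℕ) z)) := ⟨_, fun _ => rfl⟩
  obtain ⟨W, hW⟩ : ∃ W : T N → E (Q * d), ∀ z, W z = Vk (fun a : Fin Q => v (P (a : ℕ) z)) :=
    ⟨_, fun _ => rfl⟩
  have hΦu : ∀ z, Φ z ∈ unitary (Op (Q * d)) := by
    intro z
    rw [hΦ]
    exact Bk_unitary _ _ fun a => hφ' _
  have hΦc : Continuous Φ := by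
    have : Φ = fun z => Bk σ (fun a => φ (P (a : ℕ) z)) := funext hΦ
    rw [this]
    unfold Bk
    refine continuous_finset_sum _ fun a _ => ?_
    exact (continuous_const).clm_comp ((hφ.comp (hP _)).clm_comp continuous_const)
  have hWc : Continuous W := by
    have : W = fun z => Vk (fun a : Fin Q => v (P (a : ℕ) z)) := funext hW
    rw [this]
    unfold Vk
    exact continuous_finset_sum _ fun a _ => (J a).continuous.comp (hv.comp (hP _))
  obtain ⟨ut, hut⟩ : ∃ ut : E (Q * d), co S' Φ n₀ y ut = J (c n₀) (co S φ n₀ x u) := by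
    refine ⟨star (co S' Φ n₀ y) (J (c n₀) (co S φ n₀ x u)), ?_⟩
    have h1 := (Unitary.mem_iff.1 (Pool.Agent.Helper16.BZ.co_unitary S' Φ hΦu n₀ y)).2
    have h2 := congrArg (fun A : Op (Q * d) => A (J (c n₀) (co S φ n₀ x u))) h1
    exact h2
  have hco : ∀ n, n₀ ≤ n → co S' Φ n y ut = J (c n) (co S φ n x u) := by
    intro n hn
    induction n, hn using Nat.le_induction with
    | base => exact hut
    | succ n hn ih =>
      rw [Pool.Agent.Helper16.BZ.co_succ, Pool.Agent.Helper16.BZ.co_succ,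
        ContinuousLinearMap.mul_apply, ContinuousLinearMap.mul_apply, ih, hΦ, Bk_J, hσc, hc, ← hS n hn]
  refine ms_congr (F := ff S' Φ W ut y) (n₀ := n₀) (fun n hn => ?_) (hG (Q * d) Φ W ut y hΦc hΦu hWc)
  unfold ff
  rw [hco n hn, hW, inner_Vk, hc, ← hS n hn]

end Pool.Agent.Helper40.DZ
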