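import Pool.Agent.Helper40.DZ.Stmts

/-! STA: the resonances are small on the average. -/

set_option autoImplicit false

open Finset Filter MeasureTheory Topology
open scoped ComplexConjugate InnerProductSpace

namespace Pool.Agent.Helper40.DZ

open Pool.Agent.Helper16.AZ (T E Op mm fc Eig PP)
open Pool.Agent.Helper16.BZ (co Wk EE ff EQ Act)
open Pool.Agent.Helper16.CZ (Tw Orth Fn)
open Pool.Agent.Helper16.MD (MS PB Am RW Rich)
open UnitAddTorus (mFourier)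

/-- the abstract form of the estimate -/
theorem sta_abs (h1 : ST_KER) (Lv : ℕ) (N : ℕ → ℕ → ℕ → ℕ → ℝ) (hN : ∀ q j, SK (N q j)) (W : ℝ)
    (hW : ∀ q j, N q j 0 0 ≤ W)
    (hlim : ∀ j k k', Tendsto (fun q => N q j k k') atTop (𝓝 (N 0 j k k'))) (δ : ℝ) (hδ : 0 < δ) :
    ∃ q₀ : ℕ, ∀ P : Finset ℕ, (∀ p ∈ P, q₀ ≤ p ∧ p.Prime) → ∀ᶠ H : ℕ in atTop,
      ∑ h ∈ range H, ∑ h' ∈ range H, ∑ p ∈ P, ∑ q ∈ P.erase p, ∑ j ∈ range Lv,
        (N q j (p * h) (p * h') - N 0 j (p * h) (p * h')) ≤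
      (δ * (P.card : ℝ) ^ 2 + Lv * W * P.card) * (H : ℝ) ^ 2 := by
  choose L hL1 hL2 hL3 hL4 using fun q j => (h1 (N q j) (hN q j)).1
  -- the choice of K
  obtain ⟨e, he⟩ : ∃ e : ℝ, e = δ / (4 * (Lv + 1)) := ⟨_, rfl⟩
  have he0 : 0 < e := by rw [he]; positivity
  have hK : ∀ᶠ K : ℕ in atTop, ∀ j ∈ range Lv,
      (∑ k ∈ range K, ∑ k' ∈ range K, N 0 j k k') / (K : ℝ) ^ 2 < L 0 j 1 + e := by
    rw [Finset.eventually_all]
    intro j _
    have := (hL1 0 j 1 le_rfl).eventually (gt_mem_nhds (show L 0 j 1 < L 0 j 1 + e by linarith))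
    simpa only [one_mul] using this
  obtain ⟨K, hK, hK1⟩ := (hK.and (eventually_ge_atTop 1)).exists
  have hq : ∀ᶠ q : ℕ in atTop, ∀ j ∈ range Lv,
      (∑ k ∈ range K, ∑ k' ∈ range K, N q j k k') / (K : ℝ) ^ 2 <
      (∑ k ∈ range K, ∑ k' ∈ range K, N 0 j k k') / (K : ℝ) ^ 2 + e := by
    rw [Finset.eventually_all]
    intro j _
    have h2 : Tendsto (fun q : ℕ => (∑ k ∈ range K, ∑ k' ∈ range K, N q j k k') / (K : ℝ) ^ 2) atTop
        (𝓝 ((∑ k ∈ range K, ∑ k' ∈ range K, N 0 j k k') / (K : ℝ) ^ 2)) := by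
      refine Tendsto.div_const ?_ _
      exact tendsto_finsetSum _ fun k _ => tendsto_finsetSum _ fun k' _ => hlim j k k'
    exact h2.eventually (gt_mem_nhds (by linarith))
  obtain ⟨q₀, hq₀⟩ := eventually_atTop.1 hq
  refine ⟨q₀, fun P hP => ?_⟩
  have hcop : ∀ p ∈ P, ∀ q ∈ P, p ≠ q → Nat.Coprime p q := fun p hp q hq h =>
    (Nat.coprime_primes (hP p hp).2 (hP q hq).2).2 h
  -- the limit
  have hlimH : Tendsto (fun H : ℕ => (∑ h ∈ range H, ∑ h' ∈ range H, ∑ p ∈ P, ∑ q ∈ P.erase p,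
      ∑ j ∈ range Lv, (N q j (p * h) (p * h') - N 0 j (p * h) (p * h'))) / (H : ℝ) ^ 2) atTop
      (𝓝 (∑ p ∈ P, ∑ q ∈ P.erase p, ∑ j ∈ range Lv, (L q j p - L 0 j p))) := by
    have h2 : ∀ H : ℕ, (∑ h ∈ range H, ∑ h' ∈ range H, ∑ p ∈ P, ∑ q ∈ P.erase p,
        ∑ j ∈ range Lv, (N q j (p * h) (p * h') - N 0 j (p * h) (p * h'))) / (H : ℝ) ^ 2 =
        ∑ p ∈ P, ∑ q ∈ P.erase p, ∑ j ∈ range Lv,
          ((∑ h ∈ range H, ∑ h' ∈ range H, N q j (p * h) (p * h')) / (H : ℝ) ^ 2 -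
          (∑ h ∈ range H, ∑ h' ∈ range H, N 0 j (p * h) (p * h')) / (H : ℝ) ^ 2) := by
      intro H
      have h3 : ∑ h ∈ range H, ∑ h' ∈ range H, ∑ p ∈ P, ∑ q ∈ P.erase p,
          ∑ j ∈ range Lv, (N q j (p * h) (p * h') - N 0 j (p * h) (p * h')) =
          ∑ p ∈ P, ∑ q ∈ P.erase p, ∑ j ∈ range Lv, ∑ h ∈ range H, ∑ h' ∈ range H,
            (N q j (p * h) (p * h') - N 0 j (p * h) (p * h')) := by
        rw [Finset.sum_congr rfl fun h _ => Finset.sum_comm, Finset.sum_comm]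
        refine Finset.sum_congr rfl fun p _ => ?_
        rw [Finset.sum_congr rfl fun h _ => Finset.sum_comm, Finset.sum_comm]
        refine Finset.sum_congr rfl fun q _ => ?_
        rw [Finset.sum_congr rfl fun h _ => Finset.sum_comm, Finset.sum_comm]
      rw [h3]
      simp only [Finset.sum_div, sub_div, Finset.sum_sub_distrib]
    simp only [h2]
    refine tendsto_finsetSum _ fun p hp => tendsto_finsetSum _ fun q _ => tendsto_finsetSum _ fun j _ => ?_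
    have hp1 : 1 ≤ p := (hP p hp).2.one_lt.le
    exact (hL1 q j p hp1).sub (hL1 0 j p hp1)
  -- the bound of the limit
  have hbound : ∑ p ∈ P, ∑ q ∈ P.erase p, ∑ j ∈ range Lv, (L q j p - L 0 j p) ≤
      δ / 2 * (P.card : ℝ) ^ 2 + Lv * W * P.card := by
    have h2 : ∀ p ∈ P, ∀ q ∈ P, ∀ j ∈ range Lv, L q j p - L 0 j p ≤ (L q j p - L q j 1) + 2 * e := by
      intro p hp q hq j hj
      have hp1 : 1 ≤ p := (hP p hp).2.one_lt.le
      have h3 := hL2 0 j p hp1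
      have h4 := hL4 q j K hK1
      have h5 := hq₀ q (hP q hq).1 j hj
      have h6 := hK j hj
      linarith
    have h3 : ∀ p ∈ P, ∀ q ∈ P, ∀ j ∈ range Lv, 0 ≤ (L q j p - L q j 1) + 2 * e := by
      intro p hp q _ j _
      have hp1 : 1 ≤ p := (hP p hp).2.one_lt.le
      have := hL2 q j p hp1
      linarith
    calc ∑ p ∈ P, ∑ q ∈ P.erase p, ∑ j ∈ range Lv, (L q j p - L 0 j p)
        ≤ ∑ p ∈ P, ∑ q ∈ P.erase p, ∑ j ∈ range Lv, ((L q j p - L q j 1) + 2 * e) := by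
          refine Finset.sum_le_sum fun p hp => Finset.sum_le_sum fun q hq => Finset.sum_le_sum fun j hj => ?_
          exact h2 p hp q (Finset.mem_of_mem_erase hq) j hj
      _ ≤ ∑ p ∈ P, ∑ q ∈ P, ∑ j ∈ range Lv, ((L q j p - L q j 1) + 2 * e) := by
          refine Finset.sum_le_sum fun p hp => ?_
          refine Finset.sum_le_sum_of_subset_of_nonneg (Finset.erase_subset _ _) fun q hq _ => ?_
          exact Finset.sum_nonneg fun j hj => h3 p hp q hq j hj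
      _ = ∑ q ∈ P, ∑ j ∈ range Lv, ((∑ p ∈ P, (L q j p - L q j 1)) + P.card * (2 * e)) := by
          rw [Finset.sum_comm]
          refine Finset.sum_congr rfl fun q _ => ?_
          rw [Finset.sum_comm]
          refine Finset.sum_congr rfl fun j _ => ?_
          rw [Finset.sum_add_distrib, Finset.sum_const, nsmul_eq_mul]
      _ ≤ ∑ q ∈ P, ∑ j ∈ range Lv, (W + P.card * (2 * e)) := by
          refine Finset.sum_le_sum fun q _ => Finset.sum_le_sum fun j _ => ?_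
          have h4 := hL3 q j P (fun p hp => (hP p hp).2.two_le) hcop
          have h5 := hW q j
          linarith
      _ = P.card * (Lv * (W + P.card * (2 * e))) := by
          simp only [Finset.sum_const, nsmul_eq_mul, Finset.card_range]
      _ ≤ δ / 2 * (P.card : ℝ) ^ 2 + Lv * W * P.card := by
          have h6 : (Lv : ℝ) * (2 * e) ≤ δ / 2 := by
            rw [he]
            have h7 : (0 : ℝ) ≤ Lv := Nat.cast_nonneg _
            rw [show (Lv : ℝ) * (2 * (δ / (4 * (Lv + 1)))) = δ / 2 * (Lv / (Lv + 1)) by field_simp; ring]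
            have h8 : (Lv : ℝ) / (Lv + 1) ≤ 1 := by rw [div_le_one (by positivity)]; linarith
            nlinarith
          have h9 : (0 : ℝ) ≤ (P.card : ℝ) ^ 2 := by positivity
          nlinarith [mul_le_mul_of_nonneg_right h6 h9]
  rcases Finset.eq_empty_or_nonempty P with rfl | hne
  · refine Eventually.of_forall fun H => ?_
    simp
  · have hc : (1 : ℝ) ≤ P.card := by exact_mod_cast hne.card_pos
    have h2 : ∑ p ∈ P, ∑ q ∈ P.erase p, ∑ j ∈ range Lv, (L q j p - L 0 j p) <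
        δ * (P.card : ℝ) ^ 2 + Lv * W * P.card := by
      have : 0 < δ / 2 * (P.card : ℝ) ^ 2 := by positivity
      linarith
    filter_upwards [hlimH.eventually (gt_mem_nhds h2), eventually_ge_atTop 1] with H hH hH1
    have hH0 : (0 : ℝ) < (H : ℝ) ^ 2 := by
      have : (1 : ℝ) ≤ H := by exact_mod_cast hH1
      positivity
    exact ((div_lt_iff₀ hH0).1 hH).le

theorem sta_card (B δ : ℝ) (hδ : 0 < δ) : ∀ᶠ i : ℕ in atTop, Rich 1 i →
    B ≤ δ * ((PB 1 i).card : ℝ) := by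
  have h1 := tendsto_pow_const_div_const_pow_of_one_lt 1 (show (1 : ℝ) < 2 by norm_num)
  have hB : 0 < |B| + 1 := by positivity
  have h2 := h1.eventually (gt_mem_nhds (show (0 : ℝ) < δ / (4 * (|B| + 1)) by positivity))
  filter_upwards [h2, eventually_ge_atTop 1] with i hi hi1 hr
  unfold Rich at hr
  have hr' : (2 : ℝ) ^ i ≤ 4 * i * (PB 1 i).card := by exact_mod_cast hr
  rw [pow_one, div_lt_div_iff₀ (by positivity) (by positivity)] at hi
  have hi0 : (1 : ℝ) ≤ i := by exact_mod_cast hi1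
  have h3 : (i : ℝ) * (4 * (|B| + 1)) < δ * (4 * i * (PB 1 i).card) :=
    hi.trans_le (mul_le_mul_of_nonneg_left hr' hδ.le)
  have h4 : (4 * (i : ℝ)) * (|B| + 1) < (4 * i) * (δ * (PB 1 i).card) := by nlinarith
  have h5 := lt_of_mul_lt_mul_left h4 (by positivity)
  linarith [le_abs_self B]

/-- STA -/
theorem st_STA (h1 : ST_KNA) (h2 : ST_KER) (h3 : ST_QLM) (h4 : ST_NRD)
    (h5 : Pool.Agent.Helper16.CZ.ST_TMP) : ST_STA := by
  intro r d lev D ψ S φ c hTw hS hφ hc δ hδ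
  have hm := h5 r lev D ψ S hTw
  obtain ⟨V, hV⟩ := (isCompact_range hc).isBounded.exists_norm_le
  have hV' : ∀ y, ‖c y‖ ≤ V := fun y => hV _ ⟨y, rfl⟩
  have hV0 : 0 ≤ V := (norm_nonneg _).trans (hV' 0)
  have hEb : ∀ k k' y, ‖EE S φ c k k' y‖ ^ 2 ≤ V ^ 4 := by
    intro k k' y
    have h6 : ‖EE S φ c k k' y‖ ≤ V ^ 2 := by
      refine (norm_inner_le_norm _ _).trans ?_
      rw [Pool.Agent.Helper16.BZ.Wk_norm S φ c hφ.2, Pool.Agent.Helper16.BZ.Wk_norm S φ c hφ.2, pow_two]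
      exact mul_le_mul (hV' _) (hV' _) (norm_nonneg _) hV0
    calc ‖EE S φ c k k' y‖ ^ 2 ≤ (V ^ 2) ^ 2 := pow_le_pow_left₀ (norm_nonneg _) h6 2
      _ = V ^ 4 := by ring
  have hRI : ∀ k k', RI (EE S φ c k k') := fun k k' => EE_RI hS hm hφ (RI.of_continuous hc) k k'
  have hint : ∀ k k', ∫ y, ‖EE S φ c k k' y‖ ^ 2 ∂(mm r) ≤ V ^ 4 := by
    intro k k'
    have h6 := norm_integral_le_of_norm_le_const (μ := mm r) (C := V ^ 4)
      (f := fun y => ‖EE S φ c k k' y‖ ^ 2)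
      (Eventually.of_forall fun y => by
        rw [Real.norm_of_nonneg (by positivity)]
        exact hEb k k' y)
    have h7 : (mm r).real Set.univ = 1 := by simp
    rw [h7, mul_one] at h6
    exact (le_abs_self _).trans h6
  obtain ⟨Lv, hLv⟩ : ∃ Lv : ℕ, ∀ i, lev i < Lv :=
    ⟨(Finset.univ.sup lev) + 1, fun i => Nat.lt_succ_of_le (Finset.le_sup (Finset.mem_univ i))⟩
  obtain ⟨q₀, hq₀⟩ := sta_abs h2 Lv (fun q j k k' => nr lev q j (EE S φ c k k'))
    (fun q j => h1 r d lev D ψ S φ c hTw hS hφ hc q j) (V ^ 4)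
    (fun q j => (((h4 r lev _ ((hRI 0 0).memLp 2)).2.1 q j).2).trans (hint 0 0))
    (fun j k k' => h3 r lev j _ ((hRI k k').memLp 2)) (δ / 2) (by positivity)
  filter_upwards [sta_card ((Lv + 1) * V ^ 4) (δ / 2) (by positivity), eventually_ge_atTop q₀] with i hi hiq hrich
  have hB := hi hrich
  have hP : ∀ p ∈ PB 1 i, q₀ ≤ p ∧ p.Prime := by
    intro p hp
    unfold PB at hp
    rw [Finset.mem_filter, Finset.mem_Ioc] at hp
    refine ⟨?_, hp.2.1⟩
    have : i < 2 ^ i := Nat.lt_two_pow_self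
    omega
  obtain ⟨t₀, ht₀⟩ := eventually_atTop.1 (hq₀ _ hP)
  refine ⟨t₀, fun H hH => ?_⟩
  have h6 := ht₀ H hH
  have h7 : ∑ h ∈ range H, ∑ h' ∈ range H, ∑ p ∈ PB 1 i, ∑ q ∈ (PB 1 i).erase p,
      mq lev q (EE S φ c (p * h) (p * h')) ≤
      (δ / 2 * ((PB 1 i).card : ℝ) ^ 2 + Lv * V ^ 4 * (PB 1 i).card) * (H : ℝ) ^ 2 := by
    refine le_trans (le_of_eq ?_) h6
    refine Finset.sum_congr rfl fun h _ => Finset.sum_congr rfl fun h' _ =>
      Finset.sum_congr rfl fun p _ => Finset.sum_congr rfl fun q _ => ?_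
    exact (h4 r lev _ ((hRI (p * h) (p * h')).memLp 2)).1 q Lv hLv
  have h8 : ∑ h ∈ range H, ∑ h' ∈ range H, ∑ p ∈ PB 1 i,
      ∫ y, ‖EE S φ c (p * h) (p * h') y‖ ^ 2 ∂(mm r) ≤ V ^ 4 * (PB 1 i).card * (H : ℝ) ^ 2 := by
    calc _ ≤ ∑ h ∈ range H, ∑ h' ∈ range H, ∑ p ∈ PB 1 i, V ^ 4 :=
          Finset.sum_le_sum fun h _ => Finset.sum_le_sum fun h' _ => Finset.sum_le_sum fun p _ => hint _ _
      _ = V ^ 4 * (PB 1 i).card * (H : ℝ) ^ 2 := by
          simp only [Finset.sum_const, nsmul_eq_mul, Finset.card_range]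
          ring
  simp only [Finset.sum_add_distrib]
  have h9 : ((Lv + 1) * V ^ 4) * (PB 1 i).card ≤ δ / 2 * ((PB 1 i).card : ℝ) ^ 2 := by
    have := mul_le_mul_of_nonneg_right hB (Nat.cast_nonneg (PB 1 i).card : (0 : ℝ) ≤ _)
    calc _ ≤ _ := this
      _ = _ := by ring
  have h10 : (0 : ℝ) ≤ (H : ℝ) ^ 2 := by positivity
  nlinarith [mul_le_mul_of_nonneg_right h9 h10]

end Pool.Agent.Helper40.DZ
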